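import Pool.Agent.Helper95.KZ.Goals

/-!
# Project KZ, packet SLC: slabs are connected
-/

set_option autoImplicit false

namespace Pool.Agent.Helper53.KZ

open Pool.Agent.Helper52.Wq2 Pool.Agent.Helper61.NW Pool.Agent.Helper95.KZ

universe u

theorem conn_left {Γ : Type u} [Group Γ] {S : Set Γ} (hS : IsGen S) (g : Γ) {B : Set Γ}
    (hB : Conn (cay S) B) : Conn (cay S) ((fun x => g * x) '' B) := by
  refine hB.image _ ?_
  intro x _ y _ hxy
  right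
  rw [cay_adj hS] at hxy ⊢
  have e : (g * x)⁻¹ * (g * y) = x⁻¹ * y := by group
  rwa [e]

theorem slc : SlcStmt.{u} := by
  intro Γ _ S a b k B T P ⟨j₀, hj₀⟩ hP
  have hab : Commute a b := T.ab
  have e1 : ∀ i j : ℤ, a ^ i * b ^ j * a = a ^ (i + 1) * b ^ j := by
    intro i j
    rw [mul_assoc, (hab.symm.zpow_left j).eq, ← mul_assoc, zpow_add_one]
  have e2 : ∀ i j : ℤ, a ^ i * b ^ j * b = a ^ i * b ^ (j + 1) := by
    intro i j
    rw [mul_assoc, zpow_add_one]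
  refine ⟨⟨a ^ (0 : ℤ) * b ^ j₀ * 1, 0, j₀, hj₀, 1, T.one, rfl⟩, ?_⟩
  rintro A hA ⟨g, hg⟩ hcl
  have blk : ∀ i j : ℤ, P j → (∃ x ∈ B, a ^ i * b ^ j * x ∈ A) →
      ∀ x ∈ B, a ^ i * b ^ j * x ∈ A := by
    rintro i j hj ⟨x₀, hx₀, hx₀A⟩ x hx
    have h1 := conn_left T.gen (a ^ i * b ^ j) T.conn
    have h2 := h1.2 (A ∩ ((fun x => a ^ i * b ^ j * x) '' B)) Set.inter_subset_right
      ⟨_, hx₀A, x₀, hx₀, rfl⟩ (by
        rintro y ⟨hyA, hyB⟩ z hz hyz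
        refine ⟨hcl y hyA z ?_ hyz, hz⟩
        obtain ⟨w, hw, rfl⟩ := hz
        exact ⟨i, j, hj, w, hw, rfl⟩)
    exact (h2 ⟨x, hx, rfl⟩).1
  have r1 : ∀ i j : ℤ, P j → (∀ x ∈ B, a ^ i * b ^ j * x ∈ A) →
      ∀ x ∈ B, a ^ (i + 1) * b ^ j * x ∈ A := by
    intro i j hj h1
    apply blk (i + 1) j hj
    refine ⟨1, T.one, ?_⟩
    rw [mul_one, ← e1]
    exact h1 a T.ha
  have r2 : ∀ i j : ℤ, P j → (∀ x ∈ B, a ^ (i + 1) * b ^ j * x ∈ A) →
      ∀ x ∈ B, a ^ i * b ^ j * x ∈ A := by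
    intro i j hj h1
    apply blk i j hj
    refine ⟨a, T.ha, ?_⟩
    rw [e1]
    have := h1 1 T.one
    rwa [mul_one] at this
  have c1 : ∀ i j : ℤ, P (j + 1) → (∀ x ∈ B, a ^ i * b ^ j * x ∈ A) →
      ∀ x ∈ B, a ^ i * b ^ (j + 1) * x ∈ A := by
    intro i j hj h1
    apply blk i (j + 1) hj
    refine ⟨1, T.one, ?_⟩
    rw [mul_one, ← e2]
    exact h1 b T.hb
  have c2 : ∀ i j : ℤ, P j → (∀ x ∈ B, a ^ i * b ^ (j + 1) * x ∈ A) →
      ∀ x ∈ B, a ^ i * b ^ j * x ∈ A := by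
    intro i j hj h1
    apply blk i j hj
    refine ⟨b, T.hb, ?_⟩
    rw [e2]
    have := h1 1 T.one
    rwa [mul_one] at this
  have row : ∀ j : ℤ, P j → ∀ i d : ℤ, (∀ x ∈ B, a ^ i * b ^ j * x ∈ A) →
      ∀ x ∈ B, a ^ (i + d) * b ^ j * x ∈ A := by
    intro j hj i d h1
    induction d using Int.induction_on with
    | zero => rwa [add_zero]
    | succ d ih =>
      have := r1 (i + d) j hj ih
      rwa [add_assoc] at this
    | pred d ih =>
      have e : i + -(d : ℤ) = i + (-(d : ℤ) - 1) + 1 := by ring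
      rw [e] at ih
      exact r2 _ j hj ih
  have up : ∀ (i j : ℤ) (d : ℕ), P j → P (j + d) → (∀ x ∈ B, a ^ i * b ^ j * x ∈ A) →
      ∀ x ∈ B, a ^ i * b ^ (j + (d : ℤ)) * x ∈ A := by
    intro i j d hj
    induction d with
    | zero =>
      intro _ h1
      rwa [Nat.cast_zero, add_zero]
    | succ d ih =>
      intro hd h1
      have e : j + ((d + 1 : ℕ) : ℤ) = j + d + 1 := by push_cast; ring
      rw [e] at hd ⊢
      exact c1 i (j + d) hd (ih (hP j (j + d) (j + d + 1) hj hd (by omega) (by omega)) h1)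
  have dn : ∀ (i j : ℤ) (d : ℕ), P j → P (j - d) → (∀ x ∈ B, a ^ i * b ^ j * x ∈ A) →
      ∀ x ∈ B, a ^ i * b ^ (j - (d : ℤ)) * x ∈ A := by
    intro i j d hj
    induction d with
    | zero =>
      intro _ h1
      rwa [Nat.cast_zero, sub_zero]
    | succ d ih =>
      intro hd h1
      have e : j - (d : ℤ) = j - ((d + 1 : ℕ) : ℤ) + 1 := by push_cast; ring
      have h2 := ih (hP (j - ((d + 1 : ℕ) : ℤ)) (j - d) j hd hj (by push_cast; omega) (by omega)) h1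
      rw [e] at h2
      exact c2 i _ hd h2
  obtain ⟨i, j, hj, x, hx, rfl⟩ := hA hg
  have h0 := blk i j hj ⟨x, hx, hg⟩
  rintro g' ⟨i', j', hj', x', hx', rfl⟩
  have h1 := row j hj i (i' - i) h0
  rw [add_sub_cancel] at h1
  rcases le_total j j' with h2 | h2
  · obtain ⟨d, hd⟩ := Int.eq_ofNat_of_zero_le (sub_nonneg.2 h2)
    have e : j' = j + (d : ℤ) := by omega
    rw [e] at hj' ⊢
    exact up i' j d hj hj' h1 x' hx'
  · obtain ⟨d, hd⟩ := Int.eq_ofNat_of_zero_le (sub_nonneg.2 h2)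
    have e : j' = j - (d : ℤ) := by omega
    rw [e] at hj' ⊢
    exact dn i' j d hj hj' h1 x' hx'

end Pool.Agent.Helper53.KZ
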