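import Pool.Agent.Helper53.KZ.SLC

/-!
# Project KZ, packet JMP: a line `l` disjoint from `k l` does not separate
-/

set_option autoImplicit false

namespace Pool.Agent.Helper53.KZ

open Pool.Agent.Helper52.Wq2 Pool.Agent.Helper61.NW Pool.Agent.Helper95.KZ

universe u

section

variable {Γ : Type u} [Group Γ] {S : Set Γ}

/-- the points that are joined to `R` outside of `l` -/
def UU (S l R : Set Γ) : Set Γ := {x | ∃ W : Set Γ, W.Finite ∧ Conn (cay S) W ∧ Disjoint W l ∧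
  x ∈ W ∧ (W ∩ R).Nonempty}

theorem uu_adj {l R : Set Γ} {x y : Γ} (hx : x ∈ UU S l R) (hxy : (cay S).Adj x y)
    (hy : y ∉ l) : y ∈ UU S l R := by
  obtain ⟨W, h1, h2, h3, h4, h5⟩ := hx
  refine ⟨W ∪ {y}, h1.union (Set.finite_singleton y),
    h2.union (conn_singleton _ y) h4 rfl hxy, ?_, Or.inr rfl, ?_⟩
  · rw [Set.disjoint_union_left]
    exact ⟨h3, Set.disjoint_singleton_left.2 hy⟩
  · exact h5.mono (Set.inter_subset_inter_left _ Set.subset_union_left)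

theorem uu_not {l R : Set Γ} {x : Γ} (hx : x ∈ UU S l R) : x ∉ l := by
  obtain ⟨W, h1, h2, h3, h4, h5⟩ := hx
  exact Set.disjoint_left.1 h3 h4

theorem uu_R {l R : Set Γ} (hd : ∀ x ∈ R, x ∉ l) {x : Γ} (hx : x ∈ R) : x ∈ UU S l R :=
  ⟨{x}, Set.finite_singleton x, conn_singleton _ x, Set.disjoint_singleton_left.2 (hd x hx), rfl,
    ⟨x, rfl, hx⟩⟩

theorem core (hS : IsGen S) (hu : Conn (cay S) Set.univ) {l R : Set Γ} {k : Γ} (hl : l.Nonempty)
    (hk : ∀ x ∈ l, k * x ∉ l) (hR : R.Nonempty) (hkR : ∀ x ∈ R, k⁻¹ * x ∈ R)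
    (hRl : ∀ x ∈ R, x ∉ l) {o : ℕ} (ho : 0 < o) (hko : k ^ o = 1)
    (hd : ∀ x ∈ l, k * x ∉ UU S l R) : False := by
  have inv : ∀ x ∈ UU S l R, k⁻¹ * x ∈ UU S l R := by
    intro x hx
    obtain ⟨W, h1, h2, h3, h4, h5, h6, h7⟩ := hx
    have hW : W ⊆ UU S l R := fun w hw => ⟨W, h1, h2, h3, hw, h5, h6, h7⟩
    refine ⟨(fun x => k⁻¹ * x) '' W, h1.image _, conn_left hS _ h2, ?_, ⟨x, h4, rfl⟩,
      ⟨k⁻¹ * h5, ⟨h5, h6, rfl⟩, hkR _ h7⟩⟩
    rw [Set.disjoint_left]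
    rintro _ ⟨w, hw, rfl⟩ hwl
    have := hd _ hwl
    simp only [mul_inv_cancel_left] at this
    exact this (hW hw)
  have invn : ∀ (i : ℕ), ∀ x ∈ UU S l R, (k⁻¹) ^ i * x ∈ UU S l R := by
    intro i
    induction i with
    | zero => intro x hx; simpa using hx
    | succ i ih =>
      intro x hx
      rw [pow_succ', mul_assoc]
      exact inv _ (ih x hx)
  have kk : k = (k⁻¹) ^ (o - 1) := by
    obtain ⟨o', rfl⟩ : ∃ o', o = o' + 1 := ⟨o - 1, by omega⟩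
    rw [pow_succ] at hko
    rw [Nat.add_sub_cancel, inv_pow]
    exact (inv_eq_of_mul_eq_one_right hko).symm
  have fw : ∀ x ∈ UU S l R, k * x ∈ UU S l R := by
    intro x hx
    rw [kk]
    exact invn _ x hx
  obtain ⟨r, hr⟩ := hR
  obtain ⟨z, hz⟩ := hl
  have h1 := hu.2 (UU S l R) (Set.subset_univ _) ⟨r, uu_R hRl hr⟩ (by
    intro x hx y _ hxy
    by_cases hy : y ∈ l
    · have h2 : k⁻¹ * y ∉ l := by
        intro h3
        have := hk _ h3
        rw [mul_inv_cancel_left] at this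
        exact this hy
      have h3 : (cay S).Adj (k⁻¹ * x) (k⁻¹ * y) := by
        rw [cay_adj hS] at hxy ⊢
        have e : (k⁻¹ * x)⁻¹ * (k⁻¹ * y) = x⁻¹ * y := by group
        rwa [e]
      have h4 := fw _ (uu_adj (inv x hx) h3 h2)
      rwa [mul_inv_cancel_left] at h4
    · exact uu_adj hx hxy hy)
  exact uu_not (h1 (Set.mem_univ z)) hz

end

theorem jmp : JmpStmt.{u} := by
  intro Γ _ S a b k B T o ho hko l hl hk L hL hhl
  have hu : Conn (cay S) Set.univ := by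
    have h1 := slc Γ S a b k B T (fun _ => True) ⟨0, trivial⟩ (fun _ _ _ _ _ _ _ => trivial)
    have h2 : Sl a b B (fun _ => True) = Set.univ := by
      refine Set.eq_univ_of_forall ?_
      intro g
      obtain ⟨i, j, x, hx, hg⟩ := T.cov g
      exact ⟨i, j, trivial, x, hx, hg⟩
    rwa [h2] at h1
  have kB : ∀ i : ℕ, ∀ x ∈ B, k ^ i * x ∈ B := by
    intro i
    induction i with
    | zero => intro x hx; simpa using hx
    | succ i ih =>
      intro x hx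
      rw [pow_succ', mul_assoc]
      exact T.kB _ (ih x hx)
  have kk : k⁻¹ = k ^ (o - 1) := by
    obtain ⟨o', rfl⟩ : ∃ o', o = o' + 1 := ⟨o - 1, by omega⟩
    rw [pow_succ] at hko
    rw [Nat.add_sub_cancel]
    exact inv_eq_of_mul_eq_one_left hko
  have ak : Commute a k := T.ak
  have bk : Commute b k := T.bk
  have kS : ∀ P : ℤ → Prop, ∀ x ∈ Sl a b B P, k⁻¹ * x ∈ Sl a b B P := by
    rintro P x ⟨i, j, hj, y, hy, rfl⟩
    refine ⟨i, j, hj, k⁻¹ * y, ?_, ?_⟩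
    · rw [kk]
      exact kB _ y hy
    · have e1 : Commute (k⁻¹) (a ^ i * b ^ j) :=
        ((ak.symm.zpow_right i).mul_right (bk.symm.zpow_right j)).inv_left
      rw [← mul_assoc, e1.eq, mul_assoc]
  intro c
  set c' : ℤ := max c (L + 1) with hc'
  have hc1 : c ≤ c' := le_max_left _ _
  have hc2 : L + 1 ≤ c' := le_max_right _ _
  have d1 : ∀ x ∈ Sl a b B (fun j => c' ≤ j), x ∉ l := by
    rintro x ⟨i, j, hj, y, hy, rfl⟩ hxl
    have := abs_le.1 (hhl i j y hy hxl)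
    have hj' : c' ≤ j := hj
    omega
  have d2 : ∀ x ∈ Sl a b B (fun j => j ≤ -c'), x ∉ l := by
    rintro x ⟨i, j, hj, y, hy, rfl⟩ hxl
    have := abs_le.1 (hhl i j y hy hxl)
    have hj' : j ≤ -c' := hj
    omega
  by_cases hmeet : ∃ x, x ∈ UU S l (Sl a b B (fun j => c' ≤ j)) ∧
      x ∈ UU S l (Sl a b B (fun j => j ≤ -c'))
  · obtain ⟨x, ⟨W, h1, h2, h3, h4, w, h5, h6⟩, ⟨W', h1', h2', h3', h4', w', h5', h6'⟩⟩ := hmeet
    refine ⟨W ∪ W', h1.union h1', ?_, ?_, ⟨w, Or.inl h5, ?_⟩, ⟨w', Or.inr h5', ?_⟩⟩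
    · -- the union of two connected sets with a common point
      refine ⟨⟨x, Or.inl h4⟩, ?_⟩
      intro A hA hne hcl
      have g1 : (A ∩ W).Nonempty → W ⊆ A := fun hn y hy =>
        (h2.2 (A ∩ W) Set.inter_subset_right hn
          (fun y hy z hz hyz => ⟨hcl y hy.1 z (Or.inl hz) hyz, hz⟩) hy).1
      have g2 : (A ∩ W').Nonempty → W' ⊆ A := fun hn y hy =>
        (h2'.2 (A ∩ W') Set.inter_subset_right hn
          (fun y hy z hz hyz => ⟨hcl y hy.1 z (Or.inr hz) hyz, hz⟩) hy).1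
      obtain ⟨y, hy⟩ := hne
      rcases hA hy with hy' | hy'
      · have g3 := g1 ⟨y, hy, hy'⟩
        exact Set.union_subset g3 (g2 ⟨x, g3 h4, h4'⟩)
      · have g3 := g2 ⟨y, hy, hy'⟩
        exact Set.union_subset (g1 ⟨x, g3 h4', h4⟩) g3
    · rw [Set.disjoint_union_left]
      exact ⟨h3, h3'⟩
    · obtain ⟨i, j, hj, y, hy, e⟩ := h6
      exact ⟨i, j, hc1.trans hj, y, hy, e⟩
    · obtain ⟨i, j, hj, y, hy, e⟩ := h6'
      have hj' : j ≤ -c' := hj
      exact ⟨i, j, (show j ≤ -c by omega), y, hy, e⟩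
  · exfalso
    have hkl := conn_left T.gen k hl
    have full : ∀ R : Set Γ, ∀ x ∈ l, k * x ∈ UU S l R → ∀ y ∈ l, k * y ∈ UU S l R := by
      intro R x hx hkx y hy
      have h1 := hkl.2 (UU S l R ∩ ((fun x => k * x) '' l)) Set.inter_subset_right
        ⟨k * x, hkx, x, hx, rfl⟩ (by
          rintro u ⟨hu1, hu2⟩ v hv huv
          refine ⟨uu_adj hu1 huv ?_, hv⟩
          obtain ⟨w, hw, rfl⟩ := hv
          exact hk w hw)
      exact (h1 ⟨y, hy, rfl⟩).1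
    by_cases h1 : ∀ x ∈ l, k * x ∉ UU S l (Sl a b B (fun j => c' ≤ j))
    · exact core (R := Sl a b B (fun j => c' ≤ j)) T.gen hu hl.1 hk
        ⟨a ^ (0 : ℤ) * b ^ c' * 1, 0, c', le_refl _, 1, T.one, rfl⟩
        (kS _) d1 ho hko h1
    · push Not at h1
      obtain ⟨x, hx, hkx⟩ := h1
      have h2 := full _ x hx hkx
      refine core (R := Sl a b B (fun j => j ≤ -c')) T.gen hu hl.1 hk
        ⟨a ^ (0 : ℤ) * b ^ (-c') * 1, 0, -c', le_refl _, 1, T.one, rfl⟩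
        (kS _) d2 ho hko ?_
      intro y hy hky
      exact hmeet ⟨k * y, h2 y hy, hky⟩

end Pool.Agent.Helper53.KZ
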